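import Pool.Agent.K3h55.LT.Stm

/-! Monotonicity outside of the support (brick MON for helper55). -/

set_option autoImplicit false

namespace Pool.Agent.K3h23.LT

open Pool.Agent.K3h55.LT

theorem t_MON : S_MON := by
  intro d m c h0 hz hrec
  have hnn : ∀ n k, 0 ≤ c n k := by
    intro n
    induction n with
    | zero => exact h0
    | succ n ih =>
      intro k
      rw [hrec]
      have h1 := ih (k - 1)
      have h2 := ih k
      have h3 := ih (k + 1)
      positivity
  have hR : ∀ n (N : ℤ), 2 * m ≤ N → ∀ j : ℤ, 2 * j ≤ N → c n (N - j) ≤ c n j := by
    intro n
    induction n with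
    | zero =>
      intro N hN j hj
      by_cases h : m < N - j
      · rw [hz _ h]
        exact h0 j
      · have h1 : N - j = j := by omega
        rw [h1]
    | succ n ih =>
      intro N hN j hj
      rw [hrec, hrec]
      have hle : c n (N - j - 1) + c n (N - j) + c n (N - j + 1) ≤
          c n (j - 1) + c n j + c n (j + 1) := by
        have h1 := ih N hN (j - 1) (by omega)
        rw [show N - (j - 1) = N - j + 1 by ring] at h1
        have h2 := ih N hN j hj
        by_cases h3 : 2 * (j + 1) ≤ N
        · have h4 := ih N hN (j + 1) h3
          rw [show N - (j + 1) = N - j - 1 by ring] at h4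
          linarith
        · by_cases h4 : N = 2 * j
          · have h5 : N - j = j := by omega
            rw [h5]
          · have h5 : N - j = j + 1 := by omega
            have h6 : N - j - 1 = j := by omega
            rw [h6, h5]
            rw [h5] at h1
            linarith
      refine pow_le_pow_left₀ ?_ hle d
      have h1 := hnn n (N - j - 1)
      have h2 := hnn n (N - j)
      have h3 := hnn n (N - j + 1)
      linarith
  intro n k hk
  have h := hR n (2 * k + 1) (by omega) k (by omega)
  rwa [show 2 * k + 1 - k = k + 1 by ring] at h

end Pool.Agent.K3h23.LT
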